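import Pool.Agent.TH778.CMW.Main

/-!
# A first countable, countably metacompact, weakly `θ`-refinable space that is not `θ`-refinable

A counterexample in ZFC.  Fix ladders `lad l : ℕ → ω₁` at the countable limit ordinals `l`.
The space consists of the pairs `(s, l)`, `s` a finite sequence of pairs `(α, k)` with `α < l`,
and of isolated points, the infinite sequences of pairs `(α, k)` with `α < ω₁`.
A point other than `(s, l)` is in the `n`-th neighbourhood of `(s, l)` if its sequence extends `s`,
the next term is `(lad l k, k)` for some `k ≥ n`, and the point lies below `l`.
-/

namespace Pool.Agent.Results.MP_c3273b_gt.LadderTree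

open TH778.CMW

/-- There is a Hausdorff space with a base of clopen sets which is first countable,
quasi-developable, countably metacompact and weakly `θ`-refinable, but not `θ`-refinable. -/
theorem result : ∃ (X : Type) (_ : TopologicalSpace X),
    T2Space X ∧ TopologicalSpace.IsTopologicalBasis {s : Set X | IsClopen s} ∧
      FirstCountableTopology X ∧ QuasiDevelopable X ∧ CountablyMetacompact X ∧
        WeaklyThetaRefinable X ∧ ¬ ThetaRefinable X :=
  ⟨XX W1, topo, t2, clopen_basis, fc, qd, cm, wtr, not_tr W1⟩

end Pool.Agent.Results.MP_c3273b_gt.LadderTree
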